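import Mathlib
import Pool.Agent.W484.TB.Pair

/-!
# The generalized Tate conjecture for products with abelian varieties: definitions
-/

set_option autoImplicit false

namespace Pool.Agent.TH117.GT

open Polynomial TensorProduct Module Pool.Agent.W484.BB

section

variable {M : Type} [AddCommGroup M] [Module ℂ M]

/-- `x` is a generalized eigenvector of `T` for `μ`. -/
def IsGenEigen (T : M →ₗ[ℂ] M) (μ : ℂ) (x : M) : Prop :=
  ∃ j : ℕ, ((T - μ • (1 : M →ₗ[ℂ] M)) ^ j) x = 0

/-- **The Galois coniveau filtration** `N_ℓ ^ ν` of the cohomology `M` of a smooth projective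
variety over the field with `Q` elements, with Frobenius endomorphism `T`: the span of the
generalized eigenvectors whose eigenvalue `μ` is such that `μ / Q ^ ν` is an algebraic integer. -/
def galoisConiveau (T : M →ₗ[ℂ] M) (Q : ℂ) (ν : ℕ) : Submodule ℂ M :=
  Submodule.span ℂ {x | ∃ μ : ℂ, IsIntegral ℤ (μ / Q ^ ν) ∧ IsGenEigen T μ x}

/-- The eigenvalues of `T` are algebraic integers, and they have a power in the number field `E`. -/
def EigenvaluesIn (E : IntermediateField ℚ ℂ) (T : M →ₗ[ℂ] M) : Prop :=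
  ∀ ρ : ℂ, Module.End.HasEigenvalue T ρ → IsIntegral ℤ ρ ∧ ∃ n : ℕ, 0 < n ∧ ρ ^ n ∈ E

end

/-- The cohomology of degree `m` of the product `A × Y`, by the formula of Künneth: `V` is the
first cohomology of the abelian variety `A`, whose cohomology of degree `n` is `⋀ ^ n V`, and
`H m` is the cohomology of degree `m` of `Y`. -/
def Total (V : Type) [AddCommGroup V] [Module ℂ V] (H : ℕ → Type) [∀ m, AddCommGroup (H m)]
    [∀ m, Module ℂ (H m)] (m : ℕ) : Type :=
  ∀ n : Fin (m + 1), (⋀[ℂ]^(n : ℕ) V) ⊗[ℂ] H (m - n)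

section

variable {V : Type} [AddCommGroup V] [Module ℂ V] {H : ℕ → Type} [∀ m, AddCommGroup (H m)]
  [∀ m, Module ℂ (H m)]

noncomputable instance (m : ℕ) : AddCommGroup (Total V H m) :=
  inferInstanceAs (AddCommGroup (∀ n : Fin (m + 1), (⋀[ℂ]^(n : ℕ) V) ⊗[ℂ] H (m - n)))

noncomputable instance (m : ℕ) : Module ℂ (Total V H m) :=
  inferInstanceAs (Module ℂ (∀ n : Fin (m + 1), (⋀[ℂ]^(n : ℕ) V) ⊗[ℂ] H (m - n)))

/-- The component of index `n`, in `⋀ ^ n V ⊗ H (m - n)`. -/
noncomputable def comp (m : ℕ) (n : Fin (m + 1)) :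
    Total V H m →ₗ[ℂ] (⋀[ℂ]^(n : ℕ) V) ⊗[ℂ] H (m - n) :=
  LinearMap.proj (R := ℂ) (φ := fun n : Fin (m + 1) => (⋀[ℂ]^(n : ℕ) V) ⊗[ℂ] H (m - n)) n

/-- The Frobenius endomorphism of the cohomology of degree `m` of `A × Y`. -/
noncomputable def total (F : V →ₗ[ℂ] V) (G : ∀ m, H m →ₗ[ℂ] H m) (m : ℕ) :
    Total V H m →ₗ[ℂ] Total V H m :=
  LinearMap.pi (R := ℂ) (φ := fun n : Fin (m + 1) => (⋀[ℂ]^(n : ℕ) V) ⊗[ℂ] H (m - n)) fun n =>
    TensorProduct.map (exteriorPower.map (n : ℕ) F) (G (m - n)) ∘ₗ comp m n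

/-- The span of the `D_1 ... D_k x ⊗ y`, where the `D_l` are classes of divisors on `A`, `x` is any
class on `A` and `y` is a class in the step `ν - k` (which is the step `0` if `k ≥ ν`) of the coniveau
filtration `N` of `Y`. Such classes are supported in codimension `ν`. -/
def products (F : V →ₗ[ℂ] V) (Q : ℂ) {K : Type} [AddCommGroup K] [Module ℂ K]
    (N : ℕ → Submodule ℂ K) (ν : ℕ) : Submodule ℂ (ExteriorAlgebra ℂ V ⊗[ℂ] K) :=
  Submodule.span ℂ {t | ∃ (k : ℕ) (D : Fin k → ExteriorAlgebra ℂ V) (x : ExteriorAlgebra ℂ V)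
    (y : K), (∀ l, IsDivisorClass F Q (D l)) ∧ y ∈ N (ν - k) ∧ t = ((List.ofFn D).prod * x) ⊗ₜ y}

/-- The part of the step `ν` of the geometric coniveau filtration of `A × Y` given by `products`. -/
noncomputable def productConiveau (F : V →ₗ[ℂ] V) (Q : ℂ) (N : ∀ m, ℕ → Submodule ℂ (H m)) (m ν : ℕ) :
    Submodule ℂ (Total V H m) :=
  ⨅ n : Fin (m + 1), (products F Q (N (m - n)) ν).comap (incl V (H (m - n)) n ∘ₗ comp m n)

/-- `F` is diagonalizable and its eigenvalues are roots of the polynomials `f i`: `V` is the first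
cohomology of an abelian variety over the field with `q` elements, isogenous to a product of powers
of abelian varieties with characteristic polynomials `f i`. -/
def IsFrob {I : Type} (f : I → ℤ[X]) (F : V →ₗ[ℂ] V) : Prop :=
  Submodule.span ℂ {v : V | ∃ i, ∃ z : ℂ, aeval z (f i) = 0 ∧ F v = z • v} = ⊤

end

/-- Let `A` be an abelian variety over the field with `Q = q ^ s` elements, isogenous to a product
of powers of abelian varieties coming from the field with `q` elements, whose characteristic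
polynomials of Frobenius are the `f i`, and let `Y` be a smooth projective variety over the field
with `Q` elements, with cohomology `H`, such that some power of each eigenvalue of Frobenius is in the
number field `E`. If the geometric coniveau filtration `N` of `Y` contains the Galois coniveau
filtration, then the same is true for `A × Y`. -/
def GenTateTransfers {I : Type} (E : IntermediateField ℚ ℂ) (q : ℕ) (f : I → ℤ[X]) : Prop :=
  ∀ (V : Type) [AddCommGroup V] [Module ℂ V] [FiniteDimensional ℂ V] (F : V →ₗ[ℂ] V),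
    IsFrob f F → ∀ s : ℕ, 0 < s →
    ∀ (H : ℕ → Type) [∀ m, AddCommGroup (H m)] [∀ m, Module ℂ (H m)]
      [∀ m, FiniteDimensional ℂ (H m)] (G : ∀ m, H m →ₗ[ℂ] H m),
      (∀ m, EigenvaluesIn E (G m)) → ∀ N : ∀ m, ℕ → Submodule ℂ (H m),
      (∀ m ν, galoisConiveau (G m) ((q : ℂ) ^ s) ν ≤ N m ν) →
      ∀ m ν, galoisConiveau (total (F ^ s) G m) ((q : ℂ) ^ s) ν ≤
        productConiveau (F ^ s) ((q : ℂ) ^ s) N m ν

end Pool.Agent.TH117.GT
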