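import Mathlib
import Pool.Agent.W484.TB.Pair

/-!
# Integrality of products of eigenvalues of Frobenius of ordinary abelian varieties with numbers in a
given number field
-/

set_option autoImplicit false

namespace Pool.Agent.TH117.GT

open Polynomial NumberField Pool.Agent.W521.Frob Pool.Agent.W521.Criterion Pool.Agent.W484.AA
  Pool.Agent.W484.TB IsDedekindDomain

section val

variable {L : Type} [Field L] [NumberField L] (v : HeightOneSpectrum (𝓞 L))

theorem val_le {x : L} (hx : IsIntegral ℤ x) : v.valuation L x ≤ 1 :=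
  v.valuation_le_one (⟨x, hx⟩ : 𝓞 L)

theorem integral_of_val {x : L} (h : ∀ v : HeightOneSpectrum (𝓞 L), v.valuation L x ≤ 1) :
    IsIntegral ℤ x := by
  obtain ⟨a, ha⟩ := HeightOneSpectrum.mem_integers_of_valuation_le_one L x h
  rw [← ha]
  exact a.2

theorem eq_one_of_mul {a b : L} (ha : v.valuation L a ≤ 1) (hb : v.valuation L b ≤ 1)
    (h : v.valuation L (a * b) = 1) : v.valuation L a = 1 := by
  refine le_antisymm ha ?_
  rw [← h, map_mul]
  exact mul_le_of_le_one_right' hb

/-- For an ordinary Weil polynomial, one of `α`, `q / α` is a unit at `v`. -/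
theorem unit_or {q : ℕ} (hq : q ≠ 0) {h : ℤ[X]} (hm : h.Monic)
    (hord : IsCoprime (h.coeff 0) (q : ℤ)) (hv : v.valuation L (q : L) < 1) {α : L}
    (hα : aeval α (weil q h) = 0) :
    v.valuation L α = 1 ∨ v.valuation L ((q : L) / α) = 1 := by
  obtain ⟨h0, hθ⟩ := (root_iff hq hm α).1 hα
  have hα' := root_conj hq hm hα
  have hi1 : IsIntegral ℤ α := ⟨weil q h, weil_monic q hm, hα⟩
  have hi2 : IsIntegral ℤ ((q : L) / α) := ⟨weil q h, weil_monic q hm, hα'⟩
  have hint : ∀ n : ℤ, v.valuation L (n : L) ≤ 1 := fun n => by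
    have := val_le v (x := (n : L)) (by exact (isIntegral_algebraMap (x := n) (R := ℤ) (A := L)))
    exact this
  -- the constant coefficient is a unit
  have hc : v.valuation L ((h.coeff 0 : ℤ) : L) = 1 := by
    obtain ⟨a, b, hab⟩ := hord
    refine le_antisymm (hint _) ?_
    by_contra hlt
    rw [not_le] at hlt
    have h1 : (a : L) * (h.coeff 0 : ℤ) + b * q = 1 := by exact_mod_cast hab
    have h2 : v.valuation L ((a : L) * (h.coeff 0 : ℤ)) < 1 := by
      rw [map_mul]
      exact mul_lt_one_of_nonneg_of_lt_one_right (hint a) zero_le hlt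
    have h3 : v.valuation L ((b : L) * q) < 1 := by
      rw [map_mul]
      exact mul_lt_one_of_nonneg_of_lt_one_right (hint b) zero_le hv
    have h4 := (v.valuation L).map_add_lt h2 h3
    rw [h1, map_one] at h4
    exact lt_irrefl _ h4
  -- the sum is a unit
  have hθi : IsIntegral ℤ (α + q / α) := hi1.add hi2
  have h5 : (α + q / α) * aeval (α + q / α) h.divX = -((h.coeff 0 : ℤ) : L) := by
    have h6 : aeval (α + q / α) (h.divX * X + C (h.coeff 0)) = 0 := by
      rw [divX_mul_X_add]
      exact hθ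
    rw [map_add, map_mul, aeval_X, aeval_C] at h6
    rw [mul_comm]
    rw [eq_intCast] at h6
    exact eq_neg_of_add_eq_zero_left h6
  have h7 : IsIntegral ℤ (aeval (α + q / α) h.divX) := by
    rw [aeval_eq_sum_range]
    refine IsIntegral.sum _ fun i _ => ?_
    exact (hθi.pow i).smul _
  have h8 : v.valuation L (α + q / α) = 1 := by
    refine eq_one_of_mul v (val_le v hθi) (val_le v h7) ?_
    rw [h5, Valuation.map_neg, hc]
  by_contra hcon
  rw [not_or] at hcon
  have h9 := (v.valuation L).map_add_lt (lt_of_le_of_ne (val_le v hi1) hcon.1)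
    (lt_of_le_of_ne (val_le v hi2) hcon.2)
  rw [h8] at h9
  exact lt_irrefl _ h9

/-- **Moving**: an automorphism over `E` which makes all members of a set of roots without pairs
units at `v`. -/
theorem exists_move {I : Type} {q : ℕ} {h : I → ℤ[X]} (hq : q ≠ 0) (hm : ∀ i, (h i).Monic)
    (hord : ∀ i, IsCoprime ((h i).coeff 0) (q : ℤ)) (hv : v.valuation L (q : L) < 1)
    (E : Type) [Field E] [Algebra E L]
    (hfl : ∀ i, ∀ α : L, aeval α (weil q (h i)) = 0 → FlippableOver q h E α) (Z : Finset L) :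
    (∀ a ∈ Z, ∃ i, aeval a (weil q (h i)) = 0) → (∀ a ∈ Z, ∀ b ∈ Z, b ≠ q / a) →
    ∃ τ : L ≃ₐ[ℚ] L, (∀ y : E, τ (algebraMap E L y) = algebraMap E L y) ∧
      (∀ a ∈ Z, v.valuation L (τ a) = 1) ∧
      ∀ w, (∃ i, aeval w (weil q (h i)) = 0) → w ∉ Z → q / w ∉ Z → τ w = w := by
  classical
  have hqL : (q : L) ≠ 0 := by exact_mod_cast hq
  induction Z using Finset.induction_on with
  | empty =>
    intro _ _
    exact ⟨AlgEquiv.refl, fun _ => rfl, fun a ha => absurd ha (Finset.notMem_empty a),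
      fun _ _ _ _ => rfl⟩
  | insert β Z hβ ih =>
    intro hZ hno
    obtain ⟨τ, h1, h2, h3⟩ := ih (fun a ha => hZ a (Finset.mem_insert_of_mem ha))
      (fun a ha b hb => hno a (Finset.mem_insert_of_mem ha) b (Finset.mem_insert_of_mem hb))
    obtain ⟨i, hi⟩ := hZ β (Finset.mem_insert_self β Z)
    have hβ0 : β ≠ 0 := root_ne_zero hq (hm i) hi
    have hτβ : τ β = β := by
      refine h3 β ⟨i, hi⟩ hβ ?_
      intro h4
      exact hno β (Finset.mem_insert_self β Z) _ (Finset.mem_insert_of_mem h4) rfl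
    rcases eq_or_ne (v.valuation L β) 1 with hu | hu
    · refine ⟨τ, h1, ?_, ?_⟩
      · intro a ha
        rcases Finset.mem_insert.1 ha with rfl | ha
        · rw [hτβ, hu]
        · exact h2 a ha
      · intro w hw hwZ hwZ'
        exact h3 w hw (fun h => hwZ (Finset.mem_insert_of_mem h))
          (fun h => hwZ' (Finset.mem_insert_of_mem h))
    · obtain ⟨σ, hσE, hσ1, hσ2, hσ3⟩ := hfl i β hi
      have hu' : v.valuation L ((q : L) / β) = 1 :=
        (unit_or v hq (hm i) (hord i) hv hi).resolve_left hu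
      refine ⟨σ.trans τ, ?_, ?_, ?_⟩
      · intro y
        rw [AlgEquiv.trans_apply, hσE, h1]
      · intro a ha
        rw [AlgEquiv.trans_apply]
        rcases Finset.mem_insert.1 ha with hab | ha'
        · rw [hab, hσ1, map_div₀, map_natCast, hτβ, hu']
        · obtain ⟨j, hj⟩ := hZ a (Finset.mem_insert_of_mem ha')
          have h4 : σ a = a := by
            refine hσ3 j a hj ?_ ?_
            · intro hab
              exact hβ (hab ▸ ha')
            · exact hno β (Finset.mem_insert_self β Z) a (Finset.mem_insert_of_mem ha')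
          rw [h4]
          exact h2 a ha'
      · intro w hw hwZ hwZ'
        rw [AlgEquiv.trans_apply]
        obtain ⟨j, hj⟩ := hw
        have hw0 : w ≠ 0 := root_ne_zero hq (hm j) hj
        have h4 : σ w = w := by
          refine hσ3 j w hj ?_ ?_
          · rintro rfl
            exact hwZ (Finset.mem_insert_self _ _)
          · rintro rfl
            apply hwZ'
            rw [div_div_cancel₀ hqL]
            exact Finset.mem_insert_self _ _
        rw [h4]
        exact h3 w ⟨j, hj⟩ (fun h => hwZ (Finset.mem_insert_of_mem h))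
          (fun h => hwZ' (Finset.mem_insert_of_mem h))

/-- Integrality at all places. -/
theorem integral_of_integral {I : Type} {q : ℕ} {h : I → ℤ[X]} (hq : q ≠ 0)
    (hm : ∀ i, (h i).Monic) (hord : ∀ i, IsCoprime ((h i).coeff 0) (q : ℤ))
    (E : Type) [Field E] [Algebra E L]
    (hfl : ∀ i, ∀ α : L, aeval α (weil q (h i)) = 0 → FlippableOver q h E α) (zs : List L)
    (hz : ∀ a ∈ zs, ∃ i, aeval a (weil q (h i)) = 0)
    (hno : zs.Pairwise (fun a b => a * b ≠ (q : L))) (s m M : ℕ) (hM : 0 < M) (ρ : L)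
    (hρ : IsIntegral ℤ ρ) (y : E) (hy : ρ ^ M = algebraMap E L y)
    (hint : IsIntegral ℤ (zs.prod ^ s * ρ / ((q : L) ^ s) ^ m)) :
    IsIntegral ℤ (ρ / ((q : L) ^ s) ^ m) := by
  classical
  have hqL : (q : L) ≠ 0 := by exact_mod_cast hq
  refine integral_of_val fun v => ?_
  have hqle : v.valuation L (q : L) ≤ 1 :=
    val_le v (by exact_mod_cast (isIntegral_algebraMap (x := (q : ℤ)) (R := ℤ) (A := L)))
  rcases eq_or_lt_of_le hqle with hv | hv
  · rw [map_div₀, map_pow, map_pow, hv, one_pow, one_pow, div_one]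
    exact val_le v hρ
  · have hno' : ∀ a ∈ zs, ∀ b ∈ zs, b ≠ q / a := by
      have hsym : Std.Symm (fun a b : L => a * b ≠ (q : L)) := ⟨fun a b h => by rwa [mul_comm]⟩
      have hself : ∀ a ∈ zs, a * a ≠ q := by
        intro a ha h1
        obtain ⟨i, hi⟩ := hz a ha
        obtain ⟨-, -, -, h2, -⟩ := hfl i a hi
        apply h2
        rw [← h1, mul_div_assoc, div_self (root_ne_zero hq (hm i) hi), mul_one]
      intro a ha b hb h1
      have ha0 : a ≠ 0 := by
        obtain ⟨i, hi⟩ := hz a ha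
        exact root_ne_zero hq (hm i) hi
      have h2 : a * b = q := by rw [h1, mul_div_cancel₀ _ ha0]
      exact hno.forall_of_forall (fun a ha => hself a ha) ha hb h2
    obtain ⟨τ, h1, h2, -⟩ := exists_move v hq hm hord hv E hfl zs.toFinset
      (fun a ha => hz a (List.mem_toFinset.1 ha))
      (fun a ha b hb => hno' a (List.mem_toFinset.1 ha) b (List.mem_toFinset.1 hb))
    have h3 : v.valuation L (τ (zs.prod ^ s * ρ / ((q : L) ^ s) ^ m)) ≤ 1 :=
      val_le v (hint.map (τ : L →ₐ[ℚ] L).toIntAlgHom)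
    have h4 : v.valuation L (τ zs.prod) = 1 := by
      have h5 : ∀ ys : List L, (∀ a ∈ ys, a ∈ zs) → v.valuation L (τ ys.prod) = 1 := by
        intro ys
        induction ys with
        | nil => intro _; rw [List.prod_nil, map_one, map_one]
        | cons a ys ih =>
          intro h6
          rw [List.prod_cons, map_mul, map_mul, ih fun b hb => h6 b (List.mem_cons_of_mem _ hb),
            h2 a (List.mem_toFinset.2 (h6 a List.mem_cons_self)), one_mul]
      exact h5 zs fun a ha => ha
    have h6 : v.valuation L (τ ρ) = v.valuation L ρ := by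
      have h7 : (v.valuation L (τ ρ)) ^ M = (v.valuation L ρ) ^ M := by
        rw [← map_pow, ← map_pow, ← map_pow, hy, h1]
      exact (pow_left_inj₀ zero_le zero_le hM.ne').1 h7
    rw [map_div₀, map_mul, map_pow, map_pow, map_pow, map_natCast, map_div₀, map_mul, map_pow, h4,
      one_pow, one_mul, h6] at h3
    rw [map_div₀]
    exact h3

end val

/-- The same for complex numbers. -/
theorem integral_complex {I : Type} [Finite I] {q : ℕ} {h : I → ℤ[X]} (hq : q ≠ 0)
    (hm : ∀ i, (h i).Monic) (hirr : ∀ i, Irreducible ((h i).map (Int.castRingHom ℚ)))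
    (hord : ∀ i, IsCoprime ((h i).coeff 0) (q : ℤ))
    (E : Type) [Field E] [NumberField E] [IsGalois ℚ E] (e : E →+* ℂ)
    (hpat : ∀ i, ∃ l : ℕ, l.Prime ∧ l ≠ 2 ∧ ¬ l ∣ q ∧ TrivFrob E l ∧ FlipPattern q h i l)
    (zs : List ℂ) (hz : ∀ a ∈ zs, ∃ i, aeval a (weil q (h i)) = 0)
    (hno : zs.Pairwise (fun a b => a * b ≠ (q : ℂ))) (s m M : ℕ) (hM : 0 < M) (ρ : ℂ)
    (hρ : IsIntegral ℤ ρ) (y₀ : E) (hy₀ : ρ ^ M = e y₀)
    (hint : IsIntegral ℤ (zs.prod ^ s * ρ / ((q : ℂ) ^ s) ^ m)) :
    IsIntegral ℤ (ρ / ((q : ℂ) ^ s) ^ m) := by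
  classical
  cases nonempty_fintype I
  obtain ⟨θ, hθ⟩ := Field.exists_primitive_element ℚ E
  -- the field
  let T : Finset ℂ := (Finset.univ.biUnion fun i =>
    ((weil q (h i)).map (algebraMap ℤ ℂ)).roots.toFinset) ∪ {ρ, e θ}
  have hTint : ∀ y : T, IsIntegral ℚ (y : ℂ) := by
    rintro ⟨y, hy⟩
    rcases Finset.mem_union.1 hy with h1 | h1
    · obtain ⟨i, -, h2⟩ := Finset.mem_biUnion.1 h1
      have h3 := (mem_roots'.1 (Multiset.mem_toFinset.1 h2)).2
      rw [IsRoot.def, eval_map] at h3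
      have h4 : IsIntegral ℤ y := ⟨weil q (h i), weil_monic q (hm i), h3⟩
      exact h4.tower_top
    · rw [Finset.mem_insert, Finset.mem_singleton] at h1
      rcases h1 with h1 | h1
      · subst h1
        exact hρ.tower_top
      · subst h1
        have h2 : IsIntegral ℚ θ := Algebra.IsIntegral.isIntegral θ
        obtain ⟨p, hp, hp0⟩ := h2
        refine ⟨p, hp, ?_⟩
        have h3 := Polynomial.hom_eval₂ p (algebraMap ℚ E) e θ
        rw [hp0, map_zero, RingHom.ext_rat (e.comp (algebraMap ℚ E)) (algebraMap ℚ ℂ)] at h3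
        exact h3.symm
  obtain ⟨L, hL1, hL2, j, hj⟩ := exists_galois_of_rat (fun y : T => (y : ℂ)) hTint
  obtain ⟨ι, hι⟩ := exists_factor e j θ hθ (hj ⟨e θ, Finset.mem_union.2 (Or.inr (by simp))⟩)
  let _ : Algebra E L := ι.toAlgebra
  have hL : ∀ i, ∀ z : ℂ, aeval z (weil q (h i)) = 0 → ∃ x : L, j x = z := by
    intro i z hz
    refine hj ⟨z, Finset.mem_union.2 (Or.inl (Finset.mem_biUnion.2 ⟨i, Finset.mem_univ _, ?_⟩))⟩
    rw [Multiset.mem_toFinset, mem_roots ((weil_monic q (hm i)).map _).ne_zero, IsRoot.def, eval_map]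
    exact hz
  obtain ⟨r0, hr0⟩ : ∃ y : L, j y = ρ := hj ⟨ρ, Finset.mem_union.2 (Or.inr (by simp))⟩
  have hfl : ∀ i, ∀ α : L, aeval α (weil q (h i)) = 0 → FlippableOver q h E α := by
    intro i α hα
    obtain ⟨l, hl, hl2, hlq, hlE, hp⟩ := hpat i
    exact all_flippable_over hq hm L j hL E i (hirr i) hl hl2 hlq hlE hp α hα
  have hdown : ∀ (f : ℤ[X]) (x : L), aeval (j x) f = 0 → aeval x f = 0 := by
    intro f x hx
    apply j.injective
    have h2 := Polynomial.hom_eval₂ f (algebraMap ℤ L) j x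
    rw [RingHom.ext_int (j.comp (algebraMap ℤ L)) (algebraMap ℤ ℂ)] at h2
    rw [map_zero]
    exact h2.trans hx
  have hintd : ∀ x : L, IsIntegral ℤ (j x) → IsIntegral ℤ x := by
    intro x hx
    exact (isIntegral_algHom_iff j.toIntAlgHom j.injective).1 hx
  obtain ⟨xs, hxs⟩ : ∃ xs : List L, xs.map j = zs := by
    have h1 : ∀ zs : List ℂ, (∀ a ∈ zs, ∃ i, aeval a (weil q (h i)) = 0) →
        ∃ xs : List L, xs.map j = zs := by
      intro zs
      induction zs with
      | nil => exact fun _ => ⟨[], rfl⟩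
      | cons a zs ih =>
        intro h2
        obtain ⟨xs, hxs⟩ := ih fun b hb => h2 b (List.mem_cons_of_mem _ hb)
        obtain ⟨i, hi⟩ := h2 a List.mem_cons_self
        obtain ⟨x, hx⟩ := hL i a hi
        exact ⟨x :: xs, by rw [List.map_cons, hx, hxs]⟩
    exact h1 zs hz
  have hmain : IsIntegral ℤ (r0 / ((q : L) ^ s) ^ m) := by
    refine integral_of_integral hq hm hord E hfl xs ?_ ?_ s m M hM r0 ?_ y₀ ?_ ?_
    · intro a ha
      obtain ⟨i, hi⟩ := hz (j a) (by rw [← hxs]; exact List.mem_map_of_mem ha)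
      exact ⟨i, hdown _ _ hi⟩
    · rw [← hxs, List.pairwise_map] at hno
      refine hno.imp ?_
      intro a b hab h1
      apply hab
      rw [← map_mul, h1, map_natCast]
    · apply hintd
      rw [hr0]
      exact hρ
    · apply j.injective
      rw [map_pow, hr0, hy₀]
      exact (hι y₀).symm
    · apply hintd
      rw [map_div₀, map_mul, map_pow, map_list_prod, hxs, hr0, map_pow, map_pow, map_natCast]
      exact hint
  have h1 := hmain.map j.toIntAlgHom
  have h2 : j.toIntAlgHom (r0 / ((q : L) ^ s) ^ m) = ρ / ((q : ℂ) ^ s) ^ m := by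
    change j (r0 / ((q : L) ^ s) ^ m) = _
    rw [map_div₀, hr0, map_pow, map_pow, map_natCast]
  rw [h2] at h1
  exact h1

end Pool.Agent.TH117.GT
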