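import Mathlib
import Pool.Agent.TH117.GT.Defs
import Pool.Agent.TH117.GT.Val

/-!
# The generalized Tate conjecture for products with ordinary abelian varieties
-/

set_option autoImplicit false

namespace Pool.Agent.TH117.GT

open Polynomial TensorProduct Module Pool.Agent.W484.BB Pool.Agent.W521.Frob Pool.Agent.W484.AS
  Pool.Agent.W484.TB Pool.Agent.W521.Count Pool.Agent.W521.Descent Pool.Agent.W521.Density
  Pool.Agent.W521.Bad ExteriorAlgebra Pool.Agent.H194R3.Weil Pool.Agent.W521.Lower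
  Pool.Agent.W484.AA

section linear

variable {V : Type} [AddCommGroup V] [Module ℂ V]

/-- The span of the `D_1 ... D_k x`. -/
def divTimes (F : V →ₗ[ℂ] V) (Q : ℂ) (k : ℕ) : Submodule ℂ (ExteriorAlgebra ℂ V) :=
  Submodule.span ℂ {t | ∃ (D : Fin k → ExteriorAlgebra ℂ V) (x : ExteriorAlgebra ℂ V),
    (∀ l, IsDivisorClass F Q (D l)) ∧ t = (List.ofFn D).prod * x}

theorem mul_mem_divTimes (F : V →ₗ[ℂ] V) (Q : ℂ) (k : ℕ) (D : ExteriorAlgebra ℂ V)
    (hD : IsDivisorClass F Q D) (t : ExteriorAlgebra ℂ V) (ht : t ∈ divTimes F Q k) :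
    D * t ∈ divTimes F Q (k + 1) := by
  have h : divTimes F Q k ≤ (divTimes F Q (k + 1)).comap (LinearMap.mulLeft ℂ D) := by
    refine Submodule.span_le.2 ?_
    rintro _ ⟨Z, x, hZ, rfl⟩
    refine Submodule.subset_span ⟨Fin.cons D Z, x, ?_, ?_⟩
    · intro l
      refine Fin.cases ?_ (fun l => ?_) l
      · exact hD
      · exact hZ l
    · rw [LinearMap.mulLeft_apply, List.ofFn_cons, List.prod_cons, mul_assoc]
  exact h ht

theorem tmul_mem_products (F : V →ₗ[ℂ] V) (Q : ℂ) {K : Type} [AddCommGroup K] [Module ℂ K]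
    (N : ℕ → Submodule ℂ K) (ν k : ℕ) (y : K) (hy : y ∈ N (ν - k)) (t : ExteriorAlgebra ℂ V)
    (ht : t ∈ divTimes F Q k) : t ⊗ₜ[ℂ] y ∈ products F Q N ν := by
  have h : divTimes F Q k ≤ (products F Q N ν).comap
      ((TensorProduct.mk ℂ (ExteriorAlgebra ℂ V) K).flip y) := by
    refine Submodule.span_le.2 ?_
    rintro _ ⟨Z, x, hZ, rfl⟩
    exact Submodule.subset_span ⟨k, Z, x, y, hZ, hy, rfl⟩
  exact h ht

/-- Removing the pairs from a list of eigenvectors. -/
theorem list_reduce {X : Type*} (F : V →ₗ[ℂ] V) (val : X → ℂ) (Q : ℂ) :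
    ∀ (n : ℕ) (L : List (V × X)), L.length = n → (∀ e ∈ L, F e.1 = val e.2 • e.1) →
      ∃ (k : ℕ) (ys : List X), ys.Pairwise (fun y y' => val y * val y' ≠ Q) ∧
        (L.map (fun e => val e.2)).prod = Q ^ k * (ys.map val).prod ∧
        (L.map (fun e => ι ℂ e.1)).prod ∈ divTimes F Q k := by
  intro n
  induction n using Nat.strong_induction_on with
  | _ n ih =>
    intro L hlen hL
    by_cases hp : L.Pairwise (fun e e' => val e.2 * val e'.2 ≠ Q)
    · refine ⟨0, L.map Prod.snd, ?_, ?_, ?_⟩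
      · rw [List.pairwise_map]
        exact hp
      · rw [pow_zero, one_mul, List.map_map]
        rfl
      · exact Submodule.subset_span ⟨Fin.elim0, (L.map (fun e => ι ℂ e.1)).prod,
          fun l => l.elim0, by rw [List.ofFn_zero, List.prod_nil, one_mul]⟩
    · obtain ⟨e, e', L', hperm, hgood⟩ := exists_of_not_pairwise _ L hp
      rw [not_not] at hgood
      have heL : e ∈ L := hperm.mem_iff.2 (by simp)
      have heL' : e' ∈ L := hperm.mem_iff.2 (by simp)
      have hlen' : n = L'.length + 2 := by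
        have h2 := hperm.length_eq
        rw [List.length_cons, List.length_cons, hlen] at h2
        omega
      obtain ⟨k, ys, h1, h2, h3⟩ := ih L'.length (by omega) L' rfl
        (fun e₁ he₁ => hL e₁ (hperm.mem_iff.2
          (List.mem_cons_of_mem _ (List.mem_cons_of_mem _ he₁))))
      obtain ⟨b', hb'⟩ := prod_perm (K := ℂ) hperm
      refine ⟨k + 1, ys, h1, ?_, ?_⟩
      · rw [(hperm.map (fun e => val e.2)).prod_eq, List.map_cons, List.prod_cons,
          List.map_cons, List.prod_cons, ← mul_assoc, hgood, h2, pow_succ]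
        ring
      · rw [hb']
        refine Submodule.smul_mem _ _ ?_
        rw [List.map_cons, List.prod_cons, List.map_cons, List.prod_cons, ← mul_assoc]
        exact mul_mem_divTimes F _ k _
          (isDivisorClass_of_good F _ _ _ _ _ (hL e heL) (hL e' heL')
            ⟨1, one_pos, by rw [pow_one, pow_one]; exact hgood⟩) _ h3

theorem genEigen_map {M M' : Type} [AddCommGroup M] [Module ℂ M] [AddCommGroup M'] [Module ℂ M']
    (T : M →ₗ[ℂ] M) (T' : M' →ₗ[ℂ] M') (p : M →ₗ[ℂ] M') (h : ∀ t, p (T t) = T' (p t)) (μ : ℂ)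
    (j : ℕ) (t : M) : p (((T - μ • (1 : M →ₗ[ℂ] M)) ^ j) t) =
      ((T' - μ • (1 : M' →ₗ[ℂ] M')) ^ j) (p t) := by
  induction j generalizing t with
  | zero => simp
  | succ j ih =>
    rw [pow_succ, Module.End.mul_apply, ih, pow_succ, Module.End.mul_apply]
    congr 1
    rw [LinearMap.sub_apply, map_sub, h, LinearMap.smul_apply, map_smul,
      LinearMap.sub_apply, LinearMap.smul_apply, Module.End.one_apply, Module.End.one_apply]

/-- The components of a generalized eigenvector of `T ⊗ G`, `T` diagonal. -/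
theorem components_gen {U K : Type} [AddCommGroup U] [Module ℂ U] [AddCommGroup K] [Module ℂ K]
    {r : ℕ} (T : U →ₗ[ℂ] U) (G : K →ₗ[ℂ] K) (b : Basis (Fin r) ℂ U) (c : Fin r → ℂ)
    (hb : ∀ j, T (b j) = c j • b j) (μ : ℂ) (N : ℕ) (u : U ⊗[ℂ] K)
    (hu : ((TensorProduct.map T G - μ • (1 : U ⊗[ℂ] K →ₗ[ℂ] U ⊗[ℂ] K)) ^ N) u = 0) :
    ∃ h : Fin r → K, u = ∑ j, b j ⊗ₜ[ℂ] h j ∧
      ∀ j, ((c j • G - μ • (1 : K →ₗ[ℂ] K)) ^ N) (h j) = 0 := by
  classical
  -- the coordinates
  obtain ⟨p, hp⟩ : ∃ p : Fin r → (U ⊗[ℂ] K →ₗ[ℂ] K), ∀ j x y, p j (x ⊗ₜ y) = b.coord j x • y :=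
    ⟨fun j => (TensorProduct.lid ℂ K).toLinearMap ∘ₗ TensorProduct.map (b.coord j) LinearMap.id,
      fun j x y => by simp⟩
  have hpT : ∀ j t, p j (TensorProduct.map T G t) = (c j • G) (p j t) := by
    intro j t
    have h1 : p j ∘ₗ TensorProduct.map T G = (c j • G) ∘ₗ p j := by
      apply TensorProduct.ext'
      intro x y
      rw [LinearMap.comp_apply, LinearMap.comp_apply, TensorProduct.map_tmul, hp, hp,
        LinearMap.smul_apply, map_smul, smul_smul]
      congr 1
      have h2 : b.coord j (T x) = c j * b.coord j x := by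
        have h3 : b.coord j ∘ₗ T = c j • b.coord j := by
          refine b.ext fun i => ?_
          rw [LinearMap.comp_apply, hb, map_smul, LinearMap.smul_apply]
          rw [Basis.coord_apply, Basis.repr_self]
          rcases eq_or_ne i j with rfl | hij
          · rfl
          · rw [Finsupp.single_eq_of_ne hij.symm, smul_zero, smul_zero]
        exact LinearMap.congr_fun h3 x
      rw [h2]
    exact LinearMap.congr_fun h1 t
  refine ⟨fun j => p j u, ?_, fun j => ?_⟩
  · have h1 : (LinearMap.id : U ⊗[ℂ] K →ₗ[ℂ] U ⊗[ℂ] K) =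
        ∑ j, TensorProduct.mk ℂ U K (b j) ∘ₗ p j := by
      apply TensorProduct.ext'
      intro x y
      rw [LinearMap.id_apply, LinearMap.sum_apply]
      conv_lhs => rw [← b.sum_repr x, TensorProduct.sum_tmul]
      refine Finset.sum_congr rfl fun j _ => ?_
      rw [LinearMap.comp_apply, hp, TensorProduct.mk_apply, Basis.coord_apply,
        TensorProduct.smul_tmul]
    have h2 := LinearMap.congr_fun h1 u
    rw [LinearMap.id_apply, LinearMap.sum_apply] at h2
    exact h2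
  · have h3 := genEigen_map (TensorProduct.map T G) (c j • G) (p j) (hpT j) μ N u
    rw [hu, map_zero] at h3
    exact h3.symm

/-- Generalized eigenvectors and eigenvalues. -/
theorem hasEigenvalue_of_gen {K : Type} [AddCommGroup K] [Module ℂ K] (G : K →ₗ[ℂ] K) (μ : ℂ)
    (x : K) (hx : x ≠ 0) (hg : IsGenEigen G μ x) : Module.End.HasEigenvalue G μ := by
  obtain ⟨j, hj⟩ := hg
  induction j generalizing x with
  | zero => exact absurd (by simpa using hj) hx
  | succ j ih =>
    by_cases h : (G - μ • (1 : K →ₗ[ℂ] K)) x = 0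
    · refine Module.End.hasEigenvalue_of_hasEigenvector (x := x) ⟨?_, hx⟩
      rw [Module.End.mem_eigenspace_iff]
      rw [LinearMap.sub_apply, LinearMap.smul_apply, Module.End.one_apply, sub_eq_zero] at h
      exact h
    · exact ih _ h (by rw [pow_succ, Module.End.mul_apply] at hj; exact hj)

theorem gen_scale {K : Type} [AddCommGroup K] [Module ℂ K] (G : K →ₗ[ℂ] K) (c μ : ℂ) (hc : c ≠ 0)
    (N : ℕ) (x : K) (h : ((c • G - μ • (1 : K →ₗ[ℂ] K)) ^ N) x = 0) :
    ((G - (μ / c) • (1 : K →ₗ[ℂ] K)) ^ N) x = 0 := by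
  have h1 : c • G - μ • (1 : K →ₗ[ℂ] K) = c • (G - (μ / c) • (1 : K →ₗ[ℂ] K)) := by
    rw [smul_sub, smul_smul, mul_div_cancel₀ _ hc]
  rw [h1, _root_.smul_pow, LinearMap.smul_apply] at h
  exact (smul_eq_zero.1 h).resolve_left (pow_ne_zero _ hc)

/-- **One component.** -/
theorem component_mem {X : Type*} [FiniteDimensional ℂ V] (F : V →ₗ[ℂ] V) (val : X → ℂ)
    (hval : ∀ x, val x ≠ 0) (hF : Submodule.span ℂ {v : V | ∃ x, F v = val x • v} = ⊤) (Q : ℂ)
    (hQ : Q ≠ 0) {K : Type} [AddCommGroup K] [Module ℂ K] (G : K →ₗ[ℂ] K)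
    (N : ℕ → Submodule ℂ K) (hN : ∀ ν, galoisConiveau G Q ν ≤ N ν)
    (hG : ∀ ρ, Module.End.HasEigenvalue G ρ → IsIntegral ℤ ρ ∧ ∀ (ys : List X) (m : ℕ),
      ys.Pairwise (fun y y' => val y * val y' ≠ Q) →
      IsIntegral ℤ ((ys.map val).prod * ρ / Q ^ m) → IsIntegral ℤ (ρ / Q ^ m))
    (n ν : ℕ) (μ : ℂ) (hμ : IsIntegral ℤ (μ / Q ^ ν)) (u : (⋀[ℂ]^n V) ⊗[ℂ] K)
    (hu : IsGenEigen (TensorProduct.map (exteriorPower.map n F) G) μ u) :
    incl V K n u ∈ products F Q N ν := by
  classical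
  obtain ⟨j₀, hu⟩ := hu
  obtain ⟨r, b', α, hα, hb'⟩ := exists_eigenbasis_list F val hF n
  obtain ⟨h, hh, h1⟩ := components_gen (exteriorPower.map n F) G b' α hb' μ j₀ u hu
  rw [hh, map_sum]
  refine Submodule.sum_mem _ fun j _ => ?_
  have h5 : incl V K n (b' j ⊗ₜ h j) = (b' j : ExteriorAlgebra ℂ V) ⊗ₜ h j := by
    rw [incl, TensorProduct.map_tmul]
    rfl
  rw [h5]
  by_cases hj : h j = 0
  · rw [hj, TensorProduct.tmul_zero]
    exact Submodule.zero_mem _
  have hα0 : α j ≠ 0 := by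
    obtain ⟨L, -, hL⟩ := hα j
    rw [hL]
    refine List.prod_ne_zero ?_
    intro h0
    obtain ⟨x, -, hx⟩ := List.mem_map.1 h0
    exact hval x hx
  have h2 := gen_scale G (α j) μ hα0 j₀ (h j) (h1 j)
  have hρe : Module.End.HasEigenvalue G (μ / α j) :=
    hasEigenvalue_of_gen G _ (h j) hj ⟨j₀, h2⟩
  obtain ⟨hρ, hkey⟩ := hG _ hρe
  -- the first factor
  have h6 : ExteriorAlgebra.map (F ^ 1) (b' j : ExteriorAlgebra ℂ V) = α j • (b' j :
      ExteriorAlgebra ℂ V) := by
    rw [pow_one, ← Pool.Agent.W484.BB.coe_map, hb' j]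
    rfl
  refine mem_of_lists_sub F val hF n 1 (α j) ((products F Q N ν).comap
    ((TensorProduct.mk ℂ (ExteriorAlgebra ℂ V) K).flip (h j))) ?_ _ (b' j).2 h6
  intro L hlen hL hLα
  rw [pow_one] at hLα
  obtain ⟨k, ys, hp, hprod, hmem⟩ := list_reduce F val Q n L hlen hL
  refine tmul_mem_products F Q N ν k (h j) ?_ _ hmem
  apply hN
  refine Submodule.subset_span ⟨μ / α j, ?_, j₀, h2⟩
  rcases le_or_gt ν k with hk | hk
  · rw [Nat.sub_eq_zero_of_le hk, pow_zero, div_one]
    exact hρ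
  · refine hkey ys (ν - k) hp ?_
    have h7 : (ys.map val).prod * (μ / α j) / Q ^ (ν - k) = μ / Q ^ ν := by
      have h8 : α j = Q ^ k * (ys.map val).prod := by rw [← hLα, hprod]
      have h9 : Q ^ ν = Q ^ k * Q ^ (ν - k) := by rw [← pow_add]; congr 1; omega
      have h10 : (ys.map val).prod ≠ 0 := by
        intro h0
        rw [h0, mul_zero] at h8
        exact hα0 h8
      have h11 : Q ^ k ≠ 0 := pow_ne_zero _ hQ
      have h12 : Q ^ (ν - k) ≠ 0 := pow_ne_zero _ hQ
      rw [h8, h9]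
      field_simp
    rw [h7]
    exact hμ

end linear

/-- **The transfer** for good families. -/
theorem transfers_of_good {I : Type} [Finite I] (g : I → ℕ) (E : IntermediateField ℚ ℂ)
    [FiniteDimensional ℚ E] {q : ℕ} (hq : q ≠ 0) (x : (Σ i, Fin (g i)) → ℤ)
    (hx : GoodU (splitPrimes E) g q x)
    (hord : ∀ i, IsCoprime ((weil q (polys g x i)).coeff (g i)) (q : ℤ)) :
    GenTateTransfers E q (fun i => weil q (polys g x i)) := by
  intro V _ _ _ F hF s hs H _ _ _ G hG N hN m ν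
  obtain ⟨hpat, hirr, -⟩ := hx
  have hm : ∀ i, (polys g x i).Monic := fun i => mkPoly_monic (g i) _
  have hord' : ∀ i, IsCoprime ((polys g x i).coeff 0) (q : ℤ) := by
    intro i
    have h1 := weil_coeff_mid q (polys g x i)
    rw [show (polys g x i).natDegree = g i from mkPoly_natDegree (g i) _] at h1
    obtain ⟨c, hc⟩ := h1
    obtain ⟨a, b, hab⟩ := hord i
    refine ⟨a, b + a * c, ?_⟩
    rw [← hab]
    linear_combination (-a) * hc
  have hQ : (q : ℂ) ^ s ≠ 0 := pow_ne_zero _ (by exact_mod_cast hq)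
  let X := {z : ℂ // ∃ i, aeval z (weil q (polys g x i)) = 0}
  let val : X → ℂ := fun z => (z : ℂ) ^ s
  have hval : ∀ y, val y ≠ 0 := by
    rintro ⟨z, i, hz⟩
    exact pow_ne_zero _ (root_ne_zero hq (hm i) hz)
  have hspan : Submodule.span ℂ {v : V | ∃ y : X, (F ^ s) v = val y • v} = ⊤ := by
    rw [eq_top_iff, ← hF]
    refine Submodule.span_mono ?_
    rintro v ⟨i, z, hz, hv⟩
    exact ⟨⟨z, i, hz⟩, pow_apply_eigen F v z hv s⟩
  refine Submodule.span_le.2 ?_
  rintro t ⟨μ, hμ, j₀, ht⟩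
  refine (Submodule.mem_iInf _).2 fun n => ?_
  rw [Submodule.mem_comap, LinearMap.comp_apply]
  refine component_mem (F ^ s) val hval hspan _ hQ (G (m - n)) (N (m - n)) (hN (m - n)) ?_ n ν μ hμ
    (comp m n t) ⟨j₀, ?_⟩
  · intro ρ hρ
    obtain ⟨h1, M, hM, h2⟩ := hG (m - n) ρ hρ
    refine ⟨h1, fun ys c hys hint => ?_⟩
    have h3 : (ys.map val).prod = (ys.map (fun y : X => (y : ℂ))).prod ^ s := by
      induction ys with
      | nil => simp
      | cons y ys ih =>
        have h4 : ∀ ys : List X, (ys.map val).prod = (ys.map (fun y : X => (y : ℂ))).prod ^ s := by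
          intro ys
          induction ys with
          | nil => simp
          | cons y ys ih => rw [List.map_cons, List.prod_cons, List.map_cons, List.prod_cons,
              mul_pow, ih]
        exact h4 _
    rw [h3] at hint
    refine integral_complex hq hm hirr hord' (gal E) (algebraMap (gal E) ℂ) hpat
      (ys.map (fun y : X => (y : ℂ))) ?_ ?_ s c M hM ρ h1 ⟨ρ ^ M, le_gal E h2⟩ rfl hint
    · intro a ha
      obtain ⟨y, -, rfl⟩ := List.mem_map.1 ha
      exact y.2
    · rw [List.pairwise_map]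
      refine hys.imp ?_
      intro a b hab h5
      apply hab
      change (a : ℂ) ^ s * (b : ℂ) ^ s = _
      rw [← mul_pow, h5]
  · have h6 := genEigen_map (M := Total V H m) (M' := (⋀[ℂ]^(n : ℕ) V) ⊗[ℂ] H (m - n))
      (total (F ^ s) G m) (TensorProduct.map (exteriorPower.map (n : ℕ) (F ^ s)) (G (m - n))) (comp m n)
      (fun t => rfl) μ j₀ t
    rw [ht, map_zero] at h6
    exact h6.symm

/-- **The count.** -/
theorem count_transfers {I : Type} [Fintype I] (g : I → ℕ) (hg : ∀ i, 0 < g i)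
    (E : IntermediateField ℚ ℂ) [FiniteDimensional ℚ E] :
    ∃ C : ℝ, ∀ q : ℕ, IsPrimePow q →
      (∀ i, (ordinaryWeilPolys q (g i)).Finite ∧ (ordinaryWeilPolys q (g i)).Nonempty) ∧
      ({f : I → ℤ[X] | (∀ i, f i ∈ ordinaryWeilPolys q (g i)) ∧ ¬ GenTateTransfers E q f}.ncard :
        ℝ) ≤ C * (Real.log q * (q : ℝ) ^ (-(1 / 6) : ℝ)) *
          ∏ i, ((ordinaryWeilPolys q (g i)).ncard : ℝ) := by
  obtain ⟨C, h⟩ := count_of_goodU (splitPrimes E) (dense_splitPrimes E) g hg
    (fun q f => (∀ i, IsCoprime ((f i).coeff (g i)) (q : ℤ)) → GenTateTransfers E q f)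
    fun _ hq x hx hord => transfers_of_good g E hq.pos.ne' x hx hord
  refine ⟨C, fun q hq => ?_⟩
  obtain ⟨h1, h2⟩ := h q hq (fun i => ordinaryWeilPolys q (g i))
    (fun i => ⟨subset_rfl, fun f hf => hf.1⟩)
  refine ⟨h1, le_trans (le_of_eq ?_) h2⟩
  congr 2
  ext f
  constructor
  · rintro ⟨h3, h4⟩
    exact ⟨h3, fun h5 => h4 (h5 fun i => (h3 i).2)⟩
  · rintro ⟨h3, h4⟩
    exact ⟨h3, fun h5 => h4 fun _ => h5⟩

end Pool.Agent.TH117.GT
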